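import Pool.Agent.Helper70_F1.Three

/-!
# MP_f1f170_co: Sidon sets in elementary abelian 3-groups and in groups with large 3-torsion

`IsSidon A` and `Attains G m` (the group `G` attains the bound with a Sidon set of size `m`) are
defined in `Pool.Agent.Helper27_Sid.Basic`.
-/

set_option autoImplicit false

namespace Pool.Agent.Results.MP_f1f170_co.ElementaryThree

open Pool.Agent.Helper27_Sid Pool.Agent.Helper70_F1

theorem card_three (r : ℕ) : Fintype.card (Fin r → ZMod 3) = 3 ^ r := by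
  simp [ZMod.card]

theorem exp_three (r : ℕ) (x : Fin r → ZMod 3) : x + x + x = 0 := by
  funext i
  have : ∀ y : ZMod 3, y + y + y = 0 := by decide
  exact this (x i)

/-- `m ^ 2 - m + 1` is not divisible by 9 -/
theorem not_nine {m k : ℕ} (h : 9 * k + m = m * m + 1) : False := by
  have h1 : (9 * k + m) % 9 = (m * m + 1) % 9 := by rw [h]
  have h2 : m % 9 < 9 := Nat.mod_lt _ (by norm_num)
  have h3 : (m * m + 1) % 9 = ((m % 9) * (m % 9) + 1) % 9 := by
    simp [Nat.add_mod, Nat.mul_mod]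
  have h4 : (9 * k + m) % 9 = m % 9 := by omega
  rw [h3, h4] at h1
  generalize m % 9 = t at h1 h2
  interval_cases t <;> omega

theorem main_three {r : ℕ} (hr : 2 ≤ r) (A : Finset (Fin r → ZMod 3)) (hS : IsSidon A) :
    A.card ^ 2 ≤ 3 ^ r := by
  rw [sq, ← card_three r]
  rcases A.eq_empty_or_nonempty with rfl | hA
  · simp
  · rcases Nat.mod_two_eq_zero_or_one A.card with h | h
    · rcases three_even hS hA h (exp_three r) with h1 | h1
      · exfalso
        obtain ⟨s, rfl⟩ : ∃ s, r = s + 2 := ⟨r - 2, by omega⟩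
        rw [card_three, pow_add] at h1
        exact not_nine (m := A.card) (k := 3 ^ s) (by linarith)
      · omega
    · exact three_odd hS h (exp_three r)

theorem attains_three {r : ℕ} (hr : 2 ≤ r) (h : ∃ m, Attains (Fin r → ZMod 3) m) :
    ∃ s : ℕ, s ^ 2 ≤ 3 ^ r ∧ 3 ^ r ≤ s ^ 2 + s := by
  obtain ⟨m, _, h2, A, hS, rfl⟩ := h
  refine ⟨A.card, main_three hr A hS, ?_⟩
  rw [Nat.card_eq_fintype_card, card_three] at h2
  rw [sq]; exact h2

theorem not_attains {r s : ℕ} (hr : 2 ≤ r) (h1 : s ^ 2 + s < 3 ^ r) (h2 : 3 ^ r < (s + 1) ^ 2) :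
    ¬ ∃ m, Attains (Fin r → ZMod 3) m := by
  intro h
  obtain ⟨t, h3, h4⟩ := attains_three hr h
  have h5 : t ^ 2 < (s + 1) ^ 2 := lt_of_le_of_lt h3 h2
  have h6 : t < s + 1 := lt_of_pow_lt_pow_left₀ 2 (Nat.zero_le _) h5
  have h7 : t ^ 2 + t ≤ s ^ 2 + s := by
    have h8 : t ≤ s := by omega
    have h9 : t ^ 2 ≤ s ^ 2 := Nat.pow_le_pow_left h8 2
    omega
  omega

/-- (1) For every finite abelian group `G` with `h = |3G|` and every Sidon set in `G` of odd size
`m`: `|G| ≥ m ^ 2 - (1 - 1 / h) m ^ 2 / (m - 1)`.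
(2) For `r ≥ 2` every Sidon set of `(Z/3)^r` has at most `3 ^ (r / 2)` elements.
(3) For `r ≥ 2`, if `(Z/3)^r` attains the bound then `s ^ 2 ≤ 3 ^ r ≤ s ^ 2 + s` for some `s`
(the fractional part of `3 ^ (r / 2)` is less than one half).
(4) `(Z/3)^r` does not attain the bound for the 29 listed odd values of `r`. -/
theorem result :
    (∀ (G : Type) [AddCommGroup G] [Finite G] (A : Finset G), IsSidon A → Odd A.card →
      (Nat.card (Set.range (fun x : G => 3 • x)) : ℤ) * (A.card - 1) * A.card ^ 2 ≤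
        Nat.card (Set.range (fun x : G => 3 • x)) * (A.card - 1) * Nat.card G +
          (Nat.card (Set.range (fun x : G => 3 • x)) - 1) * A.card ^ 2) ∧
    (∀ r : ℕ, 2 ≤ r → ∀ A : Finset (Fin r → ZMod 3), IsSidon A → A.card ^ 2 ≤ 3 ^ r) ∧
    (∀ r : ℕ, 2 ≤ r → (∃ m, Attains (Fin r → ZMod 3) m) →
      ∃ s : ℕ, s ^ 2 ≤ 3 ^ r ∧ 3 ^ r ≤ s ^ 2 + s) ∧
    (∀ r ∈ [5, 7, 11, 13, 15, 17, 19, 21, 23, 25, 31, 33, 35, 37, 39, 41, 43, 51, 53, 55, 57, 63,
        65, 77, 79, 81, 89, 91, 99], ¬ ∃ m, Attains (Fin r → ZMod 3) m) := by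
  refine ⟨?_, fun r hr A hS => main_three hr A hS, fun r hr h => attains_three hr h, ?_⟩
  · intro G _ _ A hS hodd
    classical
    have : Fintype G := Fintype.ofFinite G
    have hA : A.Nonempty := by
      rw [← Finset.card_pos]
      exact hodd.pos
    let f : G →+ G := AddMonoidHom.id G + AddMonoidHom.id G + AddMonoidHom.id G
    have hf : ∀ x, f x = x + x + x := fun x => rfl
    have h1 := bound_odd hS (Nat.odd_iff.1 hodd) f.ker (by
      intro x hx
      rw [AddMonoidHom.mem_ker, hf] at hx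
      exact hx)
    have h2 : Nat.card (Set.range (fun x : G => 3 • x)) = f.ker.index := by
      rw [AddSubgroup.index_ker]
      have h3 : (Set.range (fun x : G => 3 • x)) = (f.range : Set G) := by
        ext y
        simp only [Set.mem_range, SetLike.mem_coe, AddMonoidHom.mem_range, hf]
        constructor
        · rintro ⟨x, rfl⟩
          exact ⟨x, by rw [succ_nsmul, two_nsmul]⟩
        · rintro ⟨x, rfl⟩
          exact ⟨x, by rw [succ_nsmul, two_nsmul]⟩
      rw [h3]
      rfl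
    rw [h2]
    have h4 := card_eq hS hA
    have h5 : (Nat.card G : ℤ) + A.card = A.card * A.card + 1 + (miss A).card := by
      rw [Nat.card_eq_fintype_card]; exact_mod_cast h4
    have h6 : ((miss A).card : ℤ) = Nat.card G + A.card - A.card * A.card - 1 := by linarith
    rw [h6] at h1
    nlinarith [h1]
  · intro r hr
    simp only [List.mem_cons, List.not_mem_nil, or_false] at hr
    have key : 2 ≤ r ∧ (Nat.sqrt (3 ^ r)) ^ 2 + Nat.sqrt (3 ^ r) < 3 ^ r := by
      rcases hr with rfl | rfl | rfl | rfl | rfl | rfl | rfl | rfl | rfl | rfl | rfl | rfl | rfl |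
        rfl | rfl | rfl | rfl | rfl | rfl | rfl | rfl | rfl | rfl | rfl | rfl | rfl | rfl | rfl |
        rfl <;> decide +kernel
    exact not_attains key.1 key.2 (Nat.lt_succ_sqrt' _)

end Pool.Agent.Results.MP_f1f170_co.ElementaryThree
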