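import Pool.Agent.Helper54_SID.Fini

/-!
# MP_f1f170_co: groups attaining the Sidon bound with fewer than `m` involutions

`IsSidon A`, `Attains G m` (the group `G` attains the bound with a Sidon set of size `m`:
`m ^ 2 - m + 1 ≤ |G| ≤ m ^ 2 + m` and `G` contains a Sidon set with `m` elements) and `invol G`
(the number of solutions of `g + g = 0`) are defined in `Pool.Agent.Helper27_Sid.Basic`.
-/

set_option autoImplicit false

namespace Pool.Agent.Results.MP_f1f170_co.InvolutionGap

open Pool.Agent.Helper27_Sid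

/-- Let `G` be a finite abelian group which attains the bound with `m` elements, and let `t` be
the number of solutions of `2 g = 0` in `G`.  Suppose `t < m`.  Then `7 t ≤ 6 m`.  If moreover
`4 m < 5 t`, then `G = (Z/2)^r x H` with `|H| = h` odd, `t = 2 ^ r`, and
`m ^ 2 + 6 m + t ≤ |G| + 5 h + 1`. -/
theorem result :
    ∀ (G : Type) [AddCommGroup G] [Finite G] (m : ℕ), Attains G m → invol G < m →
      7 * invol G ≤ 6 * m ∧
      (4 * m < 5 * invol G → ∃ (r : ℕ) (H : Type) (_ : AddCommGroup H) (_ : Finite H),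
        Odd (Nat.card H) ∧ invol G = 2 ^ r ∧ Nonempty (G ≃+ ((Fin r → ZMod 2) × H)) ∧
        m ^ 2 + 6 * m + invol G ≤ Nat.card G + 5 * Nat.card H + 1) := by
  intro G _ _ m hA ht
  refine ⟨Pool.Agent.H54SID.part_three G m hA ht, ?_⟩
  intro h54
  obtain ⟨h1, h2⟩ := Pool.Agent.H54SID.part_two G m hA ht h54
  obtain ⟨r, hr, e⟩ := decomp' G h1
  exact ⟨r, (dbl G).range, inferInstance, inferInstance, h1, hr, e, h2⟩

end Pool.Agent.Results.MP_f1f170_co.InvolutionGap
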