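import Pool.Agent.Helper27_Sid.Cases

/-!
# MP_f1f170_co: finite abelian groups attaining the Sidon bound, with many involutions

`IsSidon A`, `Attains G m` (the group `G` attains the bound with a Sidon set of size `m`),
`invol G` (the number of solutions of `g + g = 0`) and `IsDPD r f` (direct product difference
function) are defined in `Pool.Agent.Helper27_Sid.Basic` and `Pool.Agent.Helper27_Sid.Cases`.
-/

set_option autoImplicit false

namespace Pool.Agent.Results.MP_f1f170_co.ManyInvolutions

open Pool.Agent.Helper27_Sid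

/-- Let `G` be a finite abelian group, `m` a natural number and `t` the number of solutions of
`2 g = 0` in `G`.
(A) If `G` attains the bound with `m` elements then `t ≤ m + 1`.
(B) `G` attains the bound with `m` elements and `t = m` if and only if `G` is `(Z/4)^r` with
`m = 2^r`, or `G = Z/6` and `m = 2`, or `G = (Z/2)^2 x Z/5` and `m = 4`.
(C) `G` attains the bound with `m` elements and `t = m + 1` if and only if `m + 1 = 2^r`,
`G = (Z/2)^r x H` with `|H| = m` and there is `f : (Z/2)^r -> H` whose graph over the nonzero
elements is a direct product difference set.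
(D) For every `r ≥ 1` the cyclic group `H` of order `2^r - 1` occurs in (C). -/
theorem result :
    (∀ (G : Type) [AddCommGroup G] [Finite G] (m : ℕ),
      (Attains G m → invol G ≤ m + 1) ∧
      ((Attains G m ∧ invol G = m) ↔
        ((∃ r : ℕ, m = 2 ^ r ∧ Nonempty (G ≃+ (Fin r → ZMod 4))) ∨
          (m = 2 ∧ Nonempty (G ≃+ ZMod 6)) ∨
          (m = 4 ∧ Nonempty (G ≃+ ((Fin 2 → ZMod 2) × ZMod 5))))) ∧
      ((Attains G m ∧ invol G = m + 1) ↔
        ∃ r : ℕ, m + 1 = 2 ^ r ∧ ∃ (H : Type) (_ : AddCommGroup H) (_ : Finite H),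
          Nat.card H = m ∧ Nonempty (G ≃+ ((Fin r → ZMod 2) × H)) ∧
          ∃ f : (Fin r → ZMod 2) → H, IsDPD r f)) ∧
    (∀ r : ℕ, 1 ≤ r → ∃ f : (Fin r → ZMod 2) → ZMod (2 ^ r - 1), IsDPD r f) := by
  refine ⟨?_, ?_⟩
  · intro G _ _ m
    refine ⟨invol_le, ⟨?_, ?_⟩, ⟨?_, ?_⟩⟩
    · rintro ⟨hA, ht⟩
      have hA' := hA
      obtain ⟨h1, h2, A, hS, rfl⟩ := hA
      have h3 := hS.card_le
      have h4 := card_mul (G := G)
      rw [ht] at h4
      have h5 : Nat.card (dbl G).range ≤ A.card + 1 := by
        by_contra hc
        have hpos : 0 < A.card := by rw [← ht]; exact invol_pos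
        push Not at hc
        have : A.card * (A.card + 2) ≤ A.card * Nat.card (dbl G).range :=
          Nat.mul_le_mul_left _ (by omega)
        nlinarith
      rcases Nat.lt_or_ge A.card (Nat.card (dbl G).range) with h6 | h6
      · right
        exact case_succ hS ht (by omega)
      · left
        exact case_sq hS ht (by omega)
    · rintro (⟨r, rfl, ⟨e⟩⟩ | ⟨rfl, ⟨e⟩⟩ | ⟨rfl, ⟨e⟩⟩)
      · exact ⟨(attains_four r).congr e.symm, by rw [invol_congr e, invol_four]⟩
      · exact ⟨attains_six.congr e.symm, by rw [invol_congr e, invol_six]⟩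
      · exact ⟨attains_twenty.congr e.symm, by rw [invol_congr e, invol_twenty]⟩
    · rintro ⟨hA, ht⟩
      obtain ⟨h1, h2, A, hS, rfl⟩ := hA
      have h3 := hS.card_le
      have h4 := card_mul (G := G)
      rw [ht] at h4
      have hpos : 0 < A.card := by
        rcases Nat.eq_zero_or_pos A.card with h0 | h0
        · rw [h0] at h2
          have := Nat.card_pos (α := G)
          omega
        · exact h0
      have h5 : Nat.card (dbl G).range ≤ A.card := by
        by_contra hc
        push Not at hc
        have : (A.card + 1) * (A.card + 1) ≤ (A.card + 1) * Nat.card (dbl G).range :=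
          Nat.mul_le_mul_left _ (by omega)
        nlinarith
      obtain ⟨r, hr, he, f, hf⟩ := case_top hS ht (by omega) hpos
      exact ⟨r, hr, (dbl G).range, inferInstance, inferInstance, by omega, he, f, hf⟩
    · rintro ⟨r, hr, H, _, _, hH, ⟨e⟩, f, hf⟩
      refine ⟨(attains_dpd r m hr H hH f hf).congr e.symm, ?_⟩
      have hpos : 0 < m := by rw [← hH]; exact Nat.card_pos
      have hodd : Odd (Nat.card H) := by
        rw [hH]
        have hr0 : r ≠ 0 := by rintro rfl; omega
        have : Even (m + 1) := by
          rw [hr]; exact (Nat.even_pow.mpr ⟨even_two, hr0⟩)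
        rw [Nat.even_add_one, Nat.not_even_iff_odd] at this
        exact this
      rw [invol_congr e, invol_prod, invol_all _ (pi_two r), invol_odd H hodd, mul_one, card_pi, hr]
  · exact dpd_cyclic

end Pool.Agent.Results.MP_f1f170_co.ManyInvolutions
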