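import Pool.Agent.Helper37_SID.E1
import Pool.Agent.Helper37_SID.Cyc

/-!
# MP_f1f170_co: groups of order slightly above `m ^ 2 - m + 1`

`IsSidon A` and `Attains G m` (the group `G` attains the bound with a Sidon set of size `m`:
`m ^ 2 - m + 1 ≤ |G| ≤ m ^ 2 + m` and `G` contains a Sidon set with `m` elements) are
defined in `Pool.Agent.Helper27_Sid.Basic`.
-/

set_option autoImplicit false

namespace Pool.Agent.Results.MP_f1f170_co.SmallExcess

open Pool.Agent.Helper27_Sid

/-- `π : G → G / 2G` -/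
theorem exists_class (G : Type) [AddCommGroup G] [Fintype G] :
    ∃ (Q : Type) (_ : AddCommGroup Q) (_ : Fintype Q) (_ : DecidableEq Q) (π : G →+ Q),
      Function.Surjective π ∧ ∀ x, π x = 0 ↔ ∃ y, y + y = x := by
  classical
  let δ : G →+ G := nsmulAddMonoidHom 2
  have hδ : ∀ y, δ y = y + y := fun y => by
    simp [δ, two_nsmul]
  let Q : Type := G ⧸ δ.range
  letI : Fintype Q := Fintype.ofFinite Q
  let π : G →+ Q := QuotientAddGroup.mk' δ.range
  refine ⟨Q, inferInstance, inferInstance, inferInstance, π,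
    QuotientAddGroup.mk'_surjective _, ?_⟩
  intro x
  have : π x = 0 ↔ x ∈ δ.range := QuotientAddGroup.eq_zero_iff x
  rw [this, AddMonoidHom.mem_range]
  constructor
  · rintro ⟨y, hy⟩; exact ⟨y, by rw [← hδ, hy]⟩
  · rintro ⟨y, hy⟩; exact ⟨y, by rw [hδ, hy]⟩

/-- Number of missing differences. -/
theorem card_Dm_eq (G : Type) [AddCommGroup G] [Fintype G] [DecidableEq G] {A : Finset G}
    (hA : IsSidon A) (hne : A.Nonempty) {e : ℕ}
    (hn : Fintype.card G + A.card = A.card * A.card + 1 + e) :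
    (Pool.Agent.Sid13.Dm A).card = e := by
  have h := Pool.Agent.Sid13.card_Dm (A := A) hA hne
  rw [sq] at h
  omega

/-- Part (1). -/
theorem gap (G : Type) [AddCommGroup G] [Finite G] (m e : ℕ)
    (hn : Nat.card G + m = m * m + 1 + e) (he : 1 ≤ e)
    (h : (Odd m ∧ (e + 1) * (e + 2) < m) ∨ (Even (Nat.card G) ∧ 4 * (e + 1) ^ 2 ≤ m)) :
    ¬ ∃ k, Attains G k := by
  classical
  have : Fintype G := Fintype.ofFinite G
  have hN : Nat.card G = Fintype.card G := Nat.card_eq_fintype_card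
  have hem : e < m := by
    rcases h with ⟨_, h⟩ | ⟨_, h⟩ <;> nlinarith
  rintro ⟨k, hk⟩
  have hkm : k = m := Pool.Agent.H37SID.attains_unique G (by omega) (by omega) hk
  subst hkm
  obtain ⟨_, _, A, hA, hc⟩ := hk
  have hne : A.Nonempty := by
    rw [← Finset.card_pos]
    omega
  have hD : (Pool.Agent.Sid13.Dm A).card = e := card_Dm_eq G hA hne (by rw [hc, ← hN]; exact hn)
  rcases Nat.even_or_odd k with hk | hk
  · rcases h with ⟨h, _⟩ | ⟨h1, h2⟩
    · exact (Nat.not_even_iff_odd.2 h) hk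
    · have h3 := Pool.Agent.Sid13.gap_even (A := A) hA (by rw [hc]; exact hk)
        (by rw [← hN]; exact h1)
      rw [hD, hc] at h3
      omega
  · have h3 := Pool.Agent.H37SID.gap_odd (A := A) hA (by rw [hc]; exact hk)
      (by rw [Pool.Agent.H37SID.miss_eq_Dm hne, hD]; exact he)
    rw [Pool.Agent.H37SID.miss_eq_Dm hne, hD, hc] at h3
    rcases h with ⟨_, h⟩ | ⟨_, h⟩
    · omega
    · nlinarith

/-- Part (2). -/
theorem excess_one (G : Type) [AddCommGroup G] [Finite G] (m : ℕ) (hm : 1 ≤ m)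
    (hn : Nat.card G + m = m * m + 2) :
    (∃ k, Attains G k) ↔ IsAddCyclic G ∧ m ≤ 4 := by
  classical
  have : Fintype G := Fintype.ofFinite G
  have hN : Nat.card G = Fintype.card G := Nat.card_eq_fintype_card
  constructor
  · rintro ⟨k, hk⟩
    have hkm : k = m := Pool.Agent.H37SID.attains_unique G (by omega) (by omega) hk
    subst hkm
    obtain ⟨_, _, A, hA, hc⟩ := hk
    have hne : A.Nonempty := by
      rw [← Finset.card_pos]
      omega
    have hD : (Pool.Agent.Sid13.Dm A).card = 1 :=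
      card_Dm_eq G hA hne (by rw [hc, ← hN]; omega)
    obtain ⟨Q, _, _, _, π, hs, hk⟩ := exists_class G
    obtain ⟨h1, h2⟩ := Pool.Agent.H37SID.one_miss (A := A) hA hne π hs hk hD
    rw [hc] at h1
    refine ⟨?_, h1⟩
    apply Pool.Agent.H37SID.cyclic_of hm h1 (by rw [← hN]; exact hn)
    · rw [← Pool.Agent.Sid13.card_Q_eq π hs hk, h2]
    · intro x
      have := Pool.Agent.Sid13.dbl_fiber π hs hk x
      rw [h2] at this
      exact this
  · rintro ⟨h1, h2⟩
    exact ⟨m, Pool.Agent.H37SID.attains_cyclic G hm h2 hn h1⟩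

/-- (1) Let `|G| = m ^ 2 - m + 1 + e` with `e ≥ 1`. If `m` is odd and `(e + 1) (e + 2) < m`, or if
`|G|` is even and `4 (e + 1) ^ 2 ≤ m`, then the finite abelian group `G` does not attain the bound.
(2) A finite abelian group `G` of order `m ^ 2 - m + 2`, `m ≥ 1`, attains the bound if and only if
it is cyclic and `m ≤ 4`, that is, if and only if it is cyclic of order 2, 4, 8 or 14. -/
theorem result :
    (∀ (G : Type) [AddCommGroup G] [Finite G] (m e : ℕ), Nat.card G + m = m * m + 1 + e → 1 ≤ e →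
      ((Odd m ∧ (e + 1) * (e + 2) < m) ∨ (Even (Nat.card G) ∧ 4 * (e + 1) ^ 2 ≤ m)) →
      ¬ ∃ k, Attains G k) ∧
    (∀ (G : Type) [AddCommGroup G] [Finite G] (m : ℕ), 1 ≤ m → Nat.card G + m = m * m + 2 →
      ((∃ k, Attains G k) ↔ IsAddCyclic G ∧ m ≤ 4)) :=
  ⟨gap, excess_one⟩

end Pool.Agent.Results.MP_f1f170_co.SmallExcess
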